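import Pool.Agent.Helper386.D5V.Helper399_FF4b
import Pool.Agent.R887.Defs

/-!
The order of the norm of a function along a divisor under a finite extension of function fields.
-/

set_option autoImplicit false

open FF IsDedekindDomain Pool.Agent.Y172 Pool.Agent.R887

namespace Pool.Agent.N832.CC

section

variable {K L : Type} [Field K] [Field L] [Algebra ℂ K] [Algebra ℂ L]
  [Algebra K L] [IsScalarTower ℂ K L] [FiniteDimensional K L]

/-- an element which is regular at all places over `P` is integral over the valuation ring of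
`P` -/
theorem integral_of_over (P : Place ℂ K) [Algebra P.O L] [IsScalarTower P.O K L] {u : L}
    (hu : ∀ (Q : Place ℂ L) (e : ℕ), Over Q P e → Q.Reg u) : IsIntegral P.O u := by
  classical
  obtain ⟨t, ht0, ht⟩ := P.surj
  have htr : P.Reg t := Or.inr (by omega)
  have : IsDiscreteValuationRing P.O := P.isDVR
  have : CharZero K := charZero_of_injective_algebraMap (algebraMap ℂ K).injective
  let ik : Algebra ℂ P.O := ((algebraMap ℂ K).codRestrict P.O (fun c => P.reg_const c)).toAlgebra
  have hst : IsScalarTower ℂ P.O L := IsScalarTower.of_algebraMap_eq fun c => by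
    rw [IsScalarTower.algebraMap_apply ℂ K L, IsScalarTower.algebraMap_apply P.O K L]
    rfl
  let B := integralClosure P.O L
  have : IsDedekindDomain B := integralClosure.isDedekindDomain P.O K L
  have : IsFractionRing B L := integralClosure.isFractionRing_of_finite_extension K L
  have hsc : IsScalarTower ℂ B L := by
    refine IsScalarTower.of_algebraMap_eq fun c => ?_
    rw [IsScalarTower.algebraMap_apply ℂ P.O B, ← IsScalarTower.algebraMap_apply P.O B L,
      ← IsScalarTower.algebraMap_apply ℂ P.O L]
  have h1 := HeightOneSpectrum.mem_integers_of_valuation_le_one (R := B) (K := L) u (by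
    intro v
    by_cases hu0 : u = 0
    · rw [hu0, map_zero]; exact zero_le
    let Q : Place ℂ L := placeOf (k := ℂ) (L := L) v
    have hregB : ∀ b : B, Q.Reg (algebraMap B L b) := fun b => placeOf_reg v b
    have hregA : ∀ a : P.O, Q.Reg (algebraMap P.O L a) := by
      intro a
      rw [IsScalarTower.algebraMap_apply P.O B L]
      exact hregB _
    have hregK : ∀ f : K, P.Reg f → Q.Reg (algebraMap K L f) := by
      intro f hf
      have := hregA ⟨f, hf⟩
      rwa [IsScalarTower.algebraMap_apply P.O K L] at this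
    have hpos : 0 < Q.ord (algebraMap K L t) := by
      by_contra hcon
      have ht0' : algebraMap K L t ≠ 0 := by rwa [Ne, map_eq_zero]
      have h0 : Q.ord (algebraMap K L t) = 0 := by
        have := (Q.reg_iff ht0').1 (hregK t htr)
        omega
      have hall : ∀ f : K, Q.Reg (algebraMap K L f) := by
        intro f
        by_cases hf : f = 0
        · rw [hf, map_zero]; exact Q.reg_zero
        have h2 : f = f * t ^ (-(P.ord f)) * t ^ (P.ord f) := by
          rw [mul_assoc, ← zpow_add₀ ht0, neg_add_cancel, zpow_zero, mul_one]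
        have h3 : P.Reg (f * t ^ (-(P.ord f))) := by
          right
          rw [P.ord_mul hf (zpow_ne_zero _ ht0), P.ord_zpow, ht]
          omega
        rw [h2, map_mul]
        refine Q.reg_mul (hregK _ h3) ?_
        right
        rw [map_zpow₀, Q.ord_zpow, h0, mul_zero]
      obtain ⟨s, hs0, hs⟩ := Q.surj
      have h4 : Q.Reg s⁻¹ := Q.reg_of_isIntegral hall (Algebra.IsIntegral.isIntegral (R := K) s⁻¹)
      have h5 := (Q.reg_iff (inv_ne_zero hs0)).1 h4
      rw [Q.ord_inv, hs] at h5
      omega
    have hover := over_of_reg Q P t ht0 ht hregK hpos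
    exact (placeOf_nonneg v hu0).1 ((Q.reg_iff hu0).1 (hu Q _ hover)))
  obtain ⟨b, rfl⟩ := h1
  exact b.2

/-- **The order of the norm.** -/
theorem ord_norm (P : Place ℂ K) {f : L} (hf : f ≠ 0) {a : ℚ}
    (h : ∀ (Q : Place ℂ L) (e : ℕ), Over Q P e → e * a ≤ Q.ord f) :
    (Module.finrank K L : ℚ) * a ≤ P.ord (Algebra.norm K f) := by
  obtain ⟨τ, hτ0, hτ⟩ := P.surj
  have hτ0' : algebraMap K L τ ≠ 0 := by rwa [Ne, map_eq_zero]
  let iA : Algebra P.O L := ((algebraMap K L).comp P.O.subtype).toAlgebra
  have hst : IsScalarTower P.O K L := IsScalarTower.of_algebraMap_eq fun _ => rfl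
  have hg0 : Algebra.norm K f ≠ 0 := Algebra.norm_ne_zero_iff.2 hf
  have hden : (0 : ℚ) < a.den := by exact_mod_cast a.den_pos
  have ha : a = a.num / a.den := (Rat.num_div_den a).symm
  have hint : IsIntegral P.O (f ^ a.den * algebraMap K L τ ^ (-a.num)) := by
    refine integral_of_over P fun Q e hQ => ?_
    right
    rw [Q.ord_mul (pow_ne_zero _ hf) (zpow_ne_zero _ hτ0'), Q.ord_pow, Q.ord_zpow, hQ.2, hτ]
    have h1 := h Q e hQ
    have h2 : (e : ℚ) * a.num ≤ a.den * Q.ord f := by
      have h3 : (e : ℚ) * a * a.den ≤ Q.ord f * a.den := mul_le_mul_of_nonneg_right h1 hden.le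
      have h4 : a * a.den = a.num := Rat.mul_den_eq_num a
      rw [mul_assoc, h4] at h3
      linarith
    have h5 : (e : ℤ) * a.num ≤ a.den * Q.ord f := by exact_mod_cast h2
    linarith
  have h6 := Algebra.isIntegral_norm K hint
  obtain ⟨z, hz⟩ := (IsIntegrallyClosed.isIntegral_iff (R := P.O) (K := K)).1 h6
  have h7 : P.Reg (Algebra.norm K (f ^ a.den * algebraMap K L τ ^ (-a.num))) := by
    rw [← hz]
    exact z.2
  rw [← map_zpow₀ (algebraMap K L), map_mul, map_pow, Algebra.norm_algebraMap] at h7
  have h8 := (P.reg_iff (mul_ne_zero (pow_ne_zero _ hg0)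
    (pow_ne_zero _ (zpow_ne_zero _ hτ0)))).1 h7
  rw [P.ord_mul (pow_ne_zero _ hg0) (pow_ne_zero _ (zpow_ne_zero _ hτ0)), P.ord_pow, P.ord_pow,
    P.ord_zpow, hτ] at h8
  have h9 : (Module.finrank K L : ℚ) * a.num ≤ a.den * P.ord (Algebra.norm K f) := by
    have : (Module.finrank K L : ℤ) * a.num ≤ a.den * P.ord (Algebra.norm K f) := by linarith
    exact_mod_cast this
  have h10 : (Module.finrank K L : ℚ) * a * a.den ≤ P.ord (Algebra.norm K f) * a.den := by
    rw [mul_assoc, Rat.mul_den_eq_num a]
    linarith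
  exact le_of_mul_le_mul_right h10 hden

end

/-- the function field of a normal model is finitely generated -/
theorem ess_model {K : Type} [Field K] [Algebra ℂ K] {N : ℕ} {y : Fin (N + 1) → K}
    (hy : NormalModel y) : Algebra.EssFiniteType ℂ K := by
  obtain ⟨j, hj⟩ := hy.ne
  have h2 : (⊤ : IntermediateField ℂ K).FG := by
    rw [← hy.field j hj]
    exact ⟨(Set.finite_range fun i => y i / y j).toFinset, by rw [Set.Finite.coe_toFinset]⟩
  exact IntermediateField.fg_top_iff.1 h2

theorem finite_of_trdeg {K K' : Type} [Field K] [Algebra ℂ K] [Field K'] [Algebra ℂ K'] {n : ℕ}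
    [Algebra K K'] [IsScalarTower ℂ K K'] [Algebra.EssFiniteType ℂ K']
    (hn : Algebra.trdeg ℂ K = n) (hn' : Algebra.trdeg ℂ K' = n) : FiniteDimensional K K' := by
  have h1 := _root_.trdeg_add_eq ℂ K (A := K')
  rw [hn, hn'] at h1
  have h2 : Algebra.trdeg K K' = 0 := by
    have h3 : (n : Cardinal) + Algebra.trdeg K K' = n + 0 := by rw [h1, add_zero]
    exact Cardinal.eq_of_add_eq_add_left h3 (Cardinal.natCast_lt_aleph0)
  have h3 : Algebra.IsAlgebraic K K' := _root_.trdeg_eq_zero_iff.1 h2
  have h4 : Algebra.EssFiniteType K K' := Algebra.EssFiniteType.of_comp ℂ K K'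
  obtain ⟨s, hs⟩ := IntermediateField.fg_top K K'
  have h5 : FiniteDimensional K (IntermediateField.adjoin K (s : Set K')) :=
    IntermediateField.finiteDimensional_adjoin (fun x _ => (h3.isAlgebraic x).isIntegral)
  rw [hs] at h5
  exact IntermediateField.topEquiv.toLinearEquiv.finiteDimensional

end Pool.Agent.N832.CC
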