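import Pool.Agent.N110.CC.RStm
import Pool.Agent.N832.CC.NormA

/-!
Project CC (helper110), part NORM: the norm of a function under a finite morphism.
-/

set_option autoImplicit false

open FF Pool.Agent.Y172 Pool.Agent.R887 Pool.Agent.N110.CC

namespace Pool.Agent.N832.CC

theorem leafNORM : S_NORM := by
  intro K K' _ _ _ _ N N' n y y' hy hy' hn hn' π hπ f hf
  let _ : Algebra K K' := π.toRingHom.toAlgebra
  have hst : IsScalarTower ℂ K K' := IsScalarTower.of_algebraMap_eq fun c => (π.commutes c).symm
  have hess : Algebra.EssFiniteType ℂ K' := ess_model hy'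
  have hfd : FiniteDimensional K K' := finite_of_trdeg hn hn'
  refine ⟨Module.finrank K K', Module.finrank_pos, Algebra.norm K f,
    Algebra.norm_ne_zero_iff.2 hf, fun P hP a h => ord_norm P hf fun Q e hQ => ?_⟩
  have hl : LiesOver π Q P e := ⟨hQ.1, hQ.2⟩
  exact h Q e ((hπ Q P e hl).2 hP) hl

end Pool.Agent.N832.CC
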